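import Pool.Agent.QC.Inst
import Pool.Agent.QC.Ode.Simple

/-!
# Parallel sections along the lines `z ↦ (q, z)`
-/

set_option autoImplicit false

namespace Pool.Agent.QC

open MvPolynomial Pool.Agent.QC.Ode Filter Topology Set

variable {m D : ℕ} {E : Type*} [NormedAddCommGroup E] [NormedSpace ℂ E]
variable {e : Fin m → ℕ} {F : E × ℂ → Cf m D}

/-- The coefficient of the `z`-equation. -/
noncomputable def lineN (e : Fin m → ℕ) (a : ℂ) (c : Fin m → ℂ) (F : E × ℂ → Cf m D) (q : E)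
    (z : ℂ) : BV D e →L[ℂ] BV D e :=
  conW e a c (fun z => F (q, z)) z 1

section

variable {a : ℂ} {c : Fin m → ℂ}

theorem Fam.line (H : Fam e a c F) (q : E) : Fam e a c (fun z => F (q, z)) :=
  ⟨H.he, H.hD, H.ha, H.hF.comp (contDiff_const.prodMk contDiff_id), fun z => H.top (q, z)⟩

theorem Fam.fderiv_line (H : Fam e a c F) (q : E) (z : ℂ) :
    fderiv ℂ (fun z => F (q, z)) z 1 = fderiv ℂ F (q, z) (0, 1) := by
  have h1 : HasFDerivAt F (fderiv ℂ F (q, z)) (q, z) := (H.F_diff (q, z)).hasFDerivAt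
  have h2 : HasFDerivAt (fun z : ℂ => (q, z)) (ContinuousLinearMap.inr ℂ E ℂ) z :=
    hasFDerivAt_prodMk_right q z
  have h3 := h1.comp z h2
  have h4 : fderiv ℂ (fun z => F (q, z)) z =
      (fderiv ℂ F (q, z)).comp (ContinuousLinearMap.inr ℂ E ℂ) := h3.fderiv
  rw [h4]
  rfl

theorem Fam.lineN_spec (H : Fam e a c F) {q : E} {z : ℂ} (hz : (q, z) ∈ regS e F) {y y' : Fnl m}
    (hy : Low e a (pol (F (q, z))) y y') :
    lineN e a c F q z (bx D e y) = a • bx D e (lm (pol (fderiv ℂ F (q, z) (0, 1))) y') := by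
  have h1 := (H.line q).conW_spec (p := z) hz hy 1
  rw [H.fderiv_line q z] at h1
  exact h1

theorem Fam.differentiableAt_lineN (H : Fam e a c F) {q : E} {z : ℂ}
    (hz : (q, z) ∈ regS e F) : DifferentiableAt ℂ (lineN e a c F q) z := by
  have h1 := ((H.line q).contDiffAt_conW (p := z) hz).differentiableAt one_ne_zero
  exact h1.clm_apply (differentiableAt_const 1)

/-- A solution differentiated along the line. -/
theorem Sol.hasDerivAt_line {N : Set (E × ℂ)} {y : E × ℂ → Fnl m} (h : Sol e a F N y) {q : E}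
    {z : ℂ} (hz : (q, z) ∈ N) : ∃ y', Low e a (pol (F (q, z))) (y (q, z)) y' ∧
      ∀ Q, HasDerivAt (fun z => y (q, z) Q)
        (a * y' (pol (fderiv ℂ F (q, z) (0, 1)) * Q)) z := by
  obtain ⟨h1, y', h2, h3⟩ := h.2 (q, z) hz
  refine ⟨y', h2, fun Q => ?_⟩
  have h4 : HasDerivAt (fun t : ℂ => y ((q, z) + t • ((0, 1) : E × ℂ)) Q)
      (a * y' (pol (fderiv ℂ F (q, z) (0, 1)) * Q)) (z - z) := by
    rw [sub_self]; exact h3 Q (0, 1)
  have h5 := HasDerivAt.comp_sub_const z z h4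
  refine h5.congr_of_eventuallyEq (Eventually.of_forall fun s => ?_)
  show y (q, s) Q = y ((q, z) + (s - z) • ((0, 1) : E × ℂ)) Q
  congr 2
  ext
  · simp
  · simp

end

variable [FiniteDimensional ℂ E]

section Par

variable {a : ℝ} {H : FamOK e F} {ha : Irrational a} {c : Fin m → ℂ}

theorem Par.hasDerivAt_line {q : E} {G : Set ℂ} (hG : IsOpen G) {K : ℂ → Fnl m}
    (hK : (famLS e a F H ha).Par (fun z => (q, z)) G K) {z : ℂ} (hz : z ∈ G) :
    ∃ y', Low e (a : ℂ) (pol (F (q, z))) (K z) y' ∧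
      ∀ Q, HasDerivAt (fun z => K z Q) (a * y' (pol (fderiv ℂ F (q, z) (0, 1)) * Q)) z := by
  obtain ⟨N, y, hN, hs, hev⟩ := hK z hz
  rw [hG.nhdsWithin_eq hz] at hev
  obtain ⟨y', h1, h2⟩ := hs.2.hasDerivAt_line hN
  have h3 : K z = y (q, z) := hev.self_of_nhds
  rw [h3]
  refine ⟨y', h1, fun Q => (h2 Q).congr_of_eventuallyEq ?_⟩
  filter_upwards [hev] with s hs' using by rw [hs']

/-- Parallel sections along the line are solutions of the `z`-equation. -/
theorem Par.isSol (HF : Fam e (a : ℂ) c F) {q : E} {G : Set ℂ} (hG : IsOpen G) {K : ℂ → Fnl m}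
    (hK : (famLS e a F H ha).Par (fun z => (q, z)) G K)
    (hX : ∀ z ∈ G, (q, z) ∈ regS e F) :
    IsSol (lineN e a c F q) G (fun z => bx D e (K z)) := by
  intro z hz
  obtain ⟨y', h1, h2⟩ := Par.hasDerivAt_line hG hK hz
  rw [HF.lineN_spec (hX z hz) h1]
  exact hasDerivAt_pi.mpr fun b => h2 (mon b)

theorem Par.mem_Zs {q : E} {G : Set ℂ} {K : ℂ → Fnl m}
    (hK : (famLS e a F H ha).Par (fun z => (q, z)) G K) {z : ℂ} (hz : z ∈ G) :
    K z ∈ Zs e (a : ℂ) (pol (F (q, z))) := by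
  obtain ⟨N, y, hN, hs, hev⟩ := hK z hz
  rw [hev.self_of_nhdsWithin hz]
  exact (hs.2.2 _ hN).1

theorem Par.exF_bx (HF : Fam e (a : ℂ) c F) {q : E} {G : Set ℂ} {K : ℂ → Fnl m}
    (hK : (famLS e a F H ha).Par (fun z => (q, z)) G K) {z : ℂ} (hz : z ∈ G) :
    exF e (a : ℂ) c (F (q, z)) (bx D e (K z)) = K z :=
  exF_box HF.he HF.hD HF.ha (HF.top _) (Par.mem_Zs hK hz)

/-- Solutions of the `z`-equation are parallel sections along the line. -/
theorem par_of_isSol (H : FamOK e F) (ha : Irrational a) (HF : Fam e (a : ℂ) c F) {q : E}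
    {G : Set ℂ} (hG : IsOpen G) {v : ℂ → BV D e}
    (hv : IsSol (lineN e a c F q) G v) (hX : ∀ z ∈ G, (q, z) ∈ regS e F) :
    (famLS e a F H ha).Par (fun z => (q, z)) G (fun z => exF e (a : ℂ) c (F (q, z)) (v z)) := by
  intro z1 hz1
  have hX1 := hX z1 hz1
  set w := exF e (a : ℂ) c (F (q, z1)) (v z1) with hw
  have hwZ : w ∈ Zs e (a : ℂ) (pol (F (q, z1))) := (exF_spec HF.he HF.hD HF.ha (HF.top _) _).1
  obtain ⟨δ, hδ, hδX⟩ := Metric.isOpen_iff.mp HF.isOpen_reg (q, z1) hX1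
  obtain ⟨y, hy, hyw⟩ := HF.exists_sol hδX (convex_ball _ _) (Metric.mem_ball_self hδ) hwZ
  refine ⟨Metric.ball (q, z1) δ, y, Metric.mem_ball_self hδ, ⟨Metric.isOpen_ball, hy⟩, ?_⟩
  obtain ⟨δ', hδ', hδG⟩ := Metric.isOpen_iff.mp hG z1 hz1
  set r := min δ δ' with hr
  have hr0 : 0 < r := lt_min hδ hδ'
  have hmem : ∀ z ∈ Metric.ball z1 r, (q, z) ∈ Metric.ball (q, z1) δ := by
    intro z hz
    rw [Metric.mem_ball, Prod.dist_eq, dist_self]
    exact max_lt hδ ((Metric.mem_ball.mp hz).trans_le (min_le_left _ _))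
  have hsub : Metric.ball z1 r ⊆ G := (Metric.ball_subset_ball (min_le_right _ _)).trans hδG
  have h1 : IsSol (lineN e a c F q) (Metric.ball z1 r) (fun z => bx D e (y (q, z))) := by
    intro z hz
    obtain ⟨y', h2, h3⟩ := hy.hasDerivAt_line (hmem z hz)
    rw [HF.lineN_spec (hX z (hsub hz)) h2]
    exact hasDerivAt_pi.mpr fun b => h3 (mon b)
  have h2 : IsSol (lineN e a c F q) (Metric.ball z1 r) v := hv.mono hsub
  have hN : DifferentiableOn ℂ (lineN e a c F q) (Metric.ball z1 r) := fun z hz =>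
    (HF.differentiableAt_lineN (hX z (hsub hz))).differentiableWithinAt
  have h3 : EqOn v (fun z => bx D e (y (q, z))) (Metric.ball z1 r) := by
    refine h2.unique Metric.isOpen_ball (convex_ball _ _).isPreconnected hN h1
      (Metric.mem_ball_self hr0) ?_
    show v z1 = bx D e (y (q, z1))
    rw [hyw, hw, (exF_spec HF.he HF.hD HF.ha (HF.top _) _).2]
  rw [hG.nhdsWithin_eq hz1]
  filter_upwards [Metric.ball_mem_nhds z1 hr0] with z hz
  show exF e (a : ℂ) c (F (q, z)) (v z) = y (q, z)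
  rw [h3 hz]
  exact exF_box HF.he HF.hD HF.ha (HF.top _) (hy.2 _ (hmem z hz)).1

end Par

end Pool.Agent.QC
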