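import Pool.Agent.QC.Conn.Alg
import Pool.Agent.QC.FMu

/-!
# The connection: derivatives of functional valued maps
-/

set_option autoImplicit false

namespace Pool.Agent.QC

open MvPolynomial

variable {m D : ℕ}

/-- The monomial with exponent vector `d`. -/
noncomputable def mond {m D : ℕ} (d : Fin m → Fin (D + 1)) : Pol m :=
  monomial (Finsupp.equivFunOnFinite.symm (fun i => ((d i : Fin (D + 1)) : ℕ))) 1

theorem pol_eq_sum (c : Cf m D) : pol c = ∑ d, c d • mond d := by
  unfold pol mond
  refine Finset.sum_congr rfl fun d _ => ?_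
  rw [← map_smul, smul_eq_mul, mul_one]

theorem map_pol (y : Fnl m) (T : Pol m →ₗ[ℂ] Pol m) (c : Cf m D) :
    y (T (pol c)) = ∑ d, c d * y (T (mond d)) := by
  rw [pol_eq_sum, map_sum, map_sum]
  refine Finset.sum_congr rfl fun d _ => ?_
  rw [map_smul, map_smul, smul_eq_mul]

/-- `f ↦ Dop e a f i P` as a linear map. -/
noncomputable def DopF (e : Fin m → ℕ) (a : ℂ) (i : Fin m) (P : Pol m) : Pol m →ₗ[ℂ] Pol m where
  toFun f := Dop e a f i P
  map_add' f g := Dop_add_left e a f g i P
  map_smul' t f := by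
    rw [← C_mul', Dop_C_mul_left, C_mul', RingHom.id_apply]

variable {E : Type*} [NormedAddCommGroup E] [NormedSpace ℂ E]

/-- All values of the functional valued map `y` are differentiable at `p`. -/
def DFn (y : E → Fnl m) (p : E) : Prop := ∀ P, DifferentiableAt ℂ (fun q => y q P) p

open Classical in
/-- The derivative of `y` at `p` in the direction `u`. -/
noncomputable def dfn (y : E → Fnl m) (p u : E) : Fnl m :=
  if h : DFn y p then
    { toFun := fun P => fderiv ℂ (fun q => y q P) p u
      map_add' := fun P Q => by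
        have h1 : (fun q => y q (P + Q)) = (fun q => y q P) + fun q => y q Q := by
          funext q; simp
        rw [h1, fderiv_add (h P) (h Q)]; rfl
      map_smul' := fun t P => by
        have h1 : (fun q => y q (t • P)) = t • fun q => y q P := by
          funext q; simp
        rw [h1, fderiv_const_smul (h P)]; rfl }
  else 0

theorem dfn_apply {y : E → Fnl m} {p : E} (h : DFn y p) (u : E) (P : Pol m) :
    dfn y p u P = fderiv ℂ (fun q => y q P) p u := by
  unfold dfn; rw [dif_pos h]; rfl

/-- The product rule. -/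
theorem hasFDerivAt_T {y : E → Fnl m} {p : E} (hy : DFn y p) {h : E → Cf m D}
    {h' : E →L[ℂ] Cf m D} (hh : HasFDerivAt h h' p) (T : Pol m →ₗ[ℂ] Pol m) :
    ∃ L : E →L[ℂ] ℂ, HasFDerivAt (fun q => y q (T (pol (h q)))) L p ∧
      ∀ u, L u = dfn y p u (T (pol (h p))) + y p (T (pol (h' u))) := by
  have e1 : (fun q => y q (T (pol (h q)))) = fun q => ∑ d, h q d * y q (T (mond d)) := by
    funext q; exact map_pol _ _ _
  rw [e1]
  refine ⟨∑ d, (h p d • fderiv ℂ (fun q => y q (T (mond d))) p +
    y p (T (mond d)) • (ContinuousLinearMap.proj d ∘L h')), ?_, fun u => ?_⟩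
  · refine HasFDerivAt.fun_sum fun d _ => ?_
    have h1 : HasFDerivAt (fun q => h q d) (ContinuousLinearMap.proj d ∘L h') p :=
      hasFDerivAt_pi'.mp hh d
    exact h1.mul (hy (T (mond d))).hasFDerivAt
  · rw [map_pol, map_pol, ← Finset.sum_add_distrib]
    simp only [sum_apply, add_apply, smul_apply, ContinuousLinearMap.comp_apply,
      ContinuousLinearMap.proj_apply, smul_eq_mul, dfn_apply hy]
    refine Finset.sum_congr rfl fun d _ => ?_
    ring

/-- The derivative of a section of the fibres. -/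
theorem dfn_Dop {e : Fin m → ℕ} {a : ℂ} {F : E → Cf m D} {y : E → Fnl m} {p : E} (hy : DFn y p)
    (hF : DifferentiableAt ℂ F p) (hZ : ∀ᶠ q in nhds p, y q ∈ Zs e a (pol (F q))) (u : E)
    (i : Fin m) (P : Pol m) :
    dfn y p u (Dop e a (pol (F p)) i P) = -y p (Dop e a (pol (fderiv ℂ F p u)) i P) := by
  obtain ⟨L, hL, hLu⟩ := hasFDerivAt_T hy hF.hasFDerivAt (DopF e a i P)
  have h0 : HasFDerivAt (fun q => y q (DopF e a i P (pol (F q)))) (0 : E →L[ℂ] ℂ) p := by
    refine (hasFDerivAt_const (0 : ℂ) p).congr_of_eventuallyEq ?_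
    filter_upwards [hZ] with q hq using hq i P
  have h1 := hLu u
  rw [hL.unique h0] at h1
  have h2 : dfn y p u (Dop e a (pol (F p)) i P) + y p (Dop e a (pol (fderiv ℂ F p u)) i P) = 0 :=
    h1.symm
  linear_combination h2

/-- The derivative of the relation `y P = y' (f P)`. -/
theorem dfn_low {F : E → Cf m D} {y y' : E → Fnl m} {p : E} (hy : DFn y p) (hy' : DFn y' p)
    (hF : DifferentiableAt ℂ F p) (hl : ∀ᶠ q in nhds p, ∀ P, y' q (pol (F q) * P) = y q P) (u : E)
    (P : Pol m) :
    dfn y p u P = dfn y' p u (pol (F p) * P) + y' p (pol (fderiv ℂ F p u) * P) := by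
  obtain ⟨L, hL, hLu⟩ := hasFDerivAt_T hy' hF.hasFDerivAt (LinearMap.mulRight ℂ P)
  have h0 : HasFDerivAt (fun q => y' q (LinearMap.mulRight ℂ P (pol (F q))))
      (fderiv ℂ (fun q => y q P) p) p := by
    refine (hy P).hasFDerivAt.congr_of_eventuallyEq ?_
    filter_upwards [hl] with q hq using hq P
  have h1 := hLu u
  rw [hL.unique h0, ← dfn_apply hy] at h1
  exact h1

end Pool.Agent.QC
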