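import Pool.Agent.QC.FOp

/-!
# The connection: algebra

`nabla_mem`, `nabla_low`: if `z` is a derivative of the section `y` then `z - a y'(g .)` is again a
functional of the same fibre, compatible with `Low`.
-/

set_option autoImplicit false

namespace Pool.Agent.QC

open MvPolynomial

variable {m : ℕ}

theorem Dop_mix (e : Fin m → ℕ) (a : ℂ) (f g : Pol m) (i : Fin m) (P : Pol m) :
    f * Dop e a g i P + C a * (g * Dop e a f i P) = C (a + 1) * Dop e (a - 1) f i (g * P) := by
  have h1 := th_mul e i g P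
  unfold Dop
  rw [h1]
  simp only [map_add, map_sub, map_one]
  ring

/-- `(lm g y) P = y (g P)`. -/
noncomputable def lm (g : Pol m) (y : Fnl m) : Fnl m := y ∘ₗ LinearMap.mulLeft ℂ g

@[simp] theorem lm_apply (g : Pol m) (y : Fnl m) (P : Pol m) : lm g y P = y (g * P) := rfl

theorem mem_Zs {e : Fin m → ℕ} {a : ℂ} {f : Pol m} {y : Fnl m} :
    y ∈ Zs e a f ↔ ∀ i P, y (Dop e a f i P) = 0 := Iff.rfl

theorem map_C_mul (y : Fnl m) (c : ℂ) (P : Pol m) : y (C c * P) = c * y P := by
  rw [C_mul', map_smul, smul_eq_mul]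

/-- The covariant derivative is in the fibre. -/
theorem nabla_mem {e : Fin m → ℕ} {a : ℂ} {f g : Pol m} {y y' z : Fnl m}
    (hy : Low e a f y y') (hz : ∀ i P, z (Dop e a f i P) = -y (Dop e a g i P)) :
    z - a • lm g y' ∈ Zs e a f := by
  rw [mem_Zs]
  intro i P
  rw [LinearMap.sub_apply, LinearMap.smul_apply, lm_apply, hz, smul_eq_mul, ← hy.2]
  have h1 : y' (f * Dop e a g i P) + a * y' (g * Dop e a f i P) = 0 := by
    rw [← map_C_mul, ← map_add, Dop_mix, map_C_mul, hy.1 i (g * P), mul_zero]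
  linear_combination -h1

/-- The covariant derivatives of `y` and of the functional below `y` are compatible. -/
theorem nabla_low {e : Fin m → ℕ} {a : ℂ} {f g : Pol m} {y' y'' z z' : Fnl m}
    (hy' : Low e (a - 1) f y' y'')
    (hz' : ∀ i P, z' (Dop e (a - 1) f i P) = -y' (Dop e (a - 1) g i P))
    (hzz : ∀ P, z P = z' (f * P) + y' (g * P)) :
    Low e a f (z - a • lm g y') (z' - (a - 1) • lm g y'') := by
  refine ⟨nabla_mem hy' hz', fun P => ?_⟩
  rw [LinearMap.sub_apply, LinearMap.sub_apply, LinearMap.smul_apply, LinearMap.smul_apply,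
    lm_apply, lm_apply, hzz, smul_eq_mul, smul_eq_mul]
  have h1 : y'' (g * (f * P)) = y' (g * P) := by
    rw [← hy'.2]; congr 1; ring
  rw [h1]
  ring

end Pool.Agent.QC
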