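import Pool.Agent.QC.Conn.Der
import Pool.Agent.QC.Ode.Cplx

/-!
# The connection in box coordinates
-/

set_option autoImplicit false

namespace Pool.Agent.QC

open MvPolynomial Pool.Agent.QC.Ode

variable {m D : ℕ} {e : Fin m → ℕ} {c : Fin m → ℂ}

/-- The space of box vectors. -/
def BV {m : ℕ} (D : ℕ) (e : Fin m → ℕ) : Type := BoxT D e → ℂ

noncomputable instance : NormedAddCommGroup (BV D e) :=
  inferInstanceAs (NormedAddCommGroup (BoxT D e → ℂ))
noncomputable instance : NormedSpace ℂ (BV D e) := inferInstanceAs (NormedSpace ℂ (BoxT D e → ℂ))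
instance : FiniteDimensional ℂ (BV D e) := inferInstanceAs (FiniteDimensional ℂ (BoxT D e → ℂ))
instance : CompleteSpace (BV D e) := inferInstanceAs (CompleteSpace (BoxT D e → ℂ))

/-- The coordinates. -/
noncomputable def prj (g : BoxT D e) : BV D e →L[ℂ] ℂ :=
  (ContinuousLinearMap.proj g : (BoxT D e → ℂ) →L[ℂ] ℂ)

/-- The vector with given coordinates. -/
def mkV (v : BoxT D e → ℂ) : BV D e := v

@[simp] theorem prj_mkV (v : BoxT D e → ℂ) (g : BoxT D e) : prj g (mkV v : BV D e) = v g := rfl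

theorem mkV_prj (v : BV D e) : mkV (fun g => prj g v) = v := rfl

theorem BV.ext {v w : BV D e} (h : ∀ b, prj b v = prj b w) : v = w := funext h

theorem differentiable_mkV {E : Type*} [NormedAddCommGroup E] [NormedSpace ℂ E]
    {v : E → BoxT D e → ℂ} {p : E} (h : ∀ b, DifferentiableAt ℂ (fun q => v q b) p) :
    DifferentiableAt ℂ (fun q => (mkV (v q) : BV D e)) p :=
  differentiableAt_pi.mpr h

/-- The box vector of a functional. -/
noncomputable def bx (D : ℕ) (e : Fin m → ℕ) : Fnl m →ₗ[ℂ] BV D e where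
  toFun y := mkV fun b => y (mon b)
  map_add' _ _ := rfl
  map_smul' _ _ := rfl

@[simp] theorem prj_bx (y : Fnl m) (b : BoxT D e) : prj b (bx D e y) = y (mon b) := rfl

/-- The functional with box vector `v`. -/
noncomputable def exF (e : Fin m → ℕ) (a : ℂ) (c : Fin m → ℂ) (G : Cf m D)
    (v : BV D e) : Fnl m where
  toFun P := ∑ b, eval G (red e a c P b) * prj b v
  map_add' P Q := by
    simp only [map_add, Pi.add_apply, add_mul, Finset.sum_add_distrib]
  map_smul' t P := by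
    simp only [map_smul, Pi.smul_apply, smul_eval, RingHom.id_apply, smul_eq_mul,
      Finset.mul_sum, mul_assoc]

theorem exF_apply (a : ℂ) (G : Cf m D) (v : BV D e) (P : Pol m) :
    exF e a c G v P = ∑ b, eval G (red e a c P b) * prj b v := rfl

theorem exF_box (he : ∀ i, e i ≤ 1) (hD : 2 ≤ D) {a : ℂ} (ha : IrrC a) {G : Cf m D}
    (hG : TopF D c (pol G)) {y : Fnl m} (hy : y ∈ Zs e a (pol G)) :
    exF e a c G (bx D e y) = y :=
  LinearMap.ext fun P => (red_spec he hD ha hG hy P).symm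

theorem exF_spec (he : ∀ i, e i ≤ 1) (hD : 2 ≤ D) {a : ℂ} (ha : IrrC a) {G : Cf m D}
    (hG : TopF D c (pol G)) (v : BV D e) :
    exF e a c G v ∈ Zs e a (pol G) ∧ bx D e (exF e a c G v) = v := by
  obtain ⟨y, hy, hyv⟩ := box_surj he hD hG ha (fun b => prj b v)
  have h1 := exF_box he hD ha hG hy
  have h2 : bx D e y = v := BV.ext fun b => hyv b
  rw [h2] at h1
  rw [h1]
  exact ⟨hy, h2⟩

/-- The basis vectors. -/
noncomputable def sgl (b : BoxT D e) : BV D e := mkV (Pi.single b (1 : ℂ))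

/-- A matrix as an operator. -/
noncomputable def mA (M : Matrix (BoxT D e) (BoxT D e) ℂ) : BV D e →L[ℂ] BV D e :=
  ∑ b, ∑ g, M b g • (prj g).smulRight (sgl b)

theorem mA_coord (M : Matrix (BoxT D e) (BoxT D e) ℂ) (v : BV D e) (b : BoxT D e) :
    prj b (mA M v) = ∑ g, M b g * prj g v := by
  unfold mA
  simp only [sum_apply, smul_apply, ContinuousLinearMap.smulRight_apply, map_sum, map_smul,
    smul_eq_mul]
  rw [Finset.sum_eq_single b]
  · have h1 : prj b (sgl b : BV D e) = 1 := by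
      show (Pi.single b (1 : ℂ) : BoxT D e → ℂ) b = 1
      rw [Pi.single_eq_same]
    simp only [h1, mul_one]
  · intro b' _ hb'
    refine Finset.sum_eq_zero fun g _ => ?_
    have h1 : prj b (sgl b' : BV D e) = 0 := by
      show (Pi.single b' (1 : ℂ) : BoxT D e → ℂ) b = 0
      rw [Pi.single_eq_of_ne (Ne.symm hb')]
    rw [h1]
    ring
  · intro h; exact absurd (Finset.mem_univ b) h

theorem mA_apply (M : Matrix (BoxT D e) (BoxT D e) ℂ) (v : BV D e) :
    mA M v = mkV (M.mulVec fun b => prj b v) :=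
  BV.ext fun b => by rw [mA_coord]; rfl

theorem mA_mul (M N : Matrix (BoxT D e) (BoxT D e) ℂ) : mA (M * N) = mA M * mA N := by
  ext1 v
  rw [mul_apply_eq_comp, mA_apply, mA_apply, mA_apply, ← Matrix.mulVec_mulVec]
  rfl

theorem mA_one : mA (1 : Matrix (BoxT D e) (BoxT D e) ℂ) = 1 := by
  ext1 v
  rw [mA_apply, Matrix.one_mulVec]
  rfl

theorem mA_smul (t : ℂ) (M : Matrix (BoxT D e) (BoxT D e) ℂ) : mA (t • M) = t • mA M := by
  ext1 v
  rw [mA_apply, smul_apply, mA_apply, Matrix.smul_mulVec]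
  rfl

theorem mA_inv {M : Matrix (BoxT D e) (BoxT D e) ℂ} (h : IsUnit M) :
    mA M⁻¹ = Ring.inverse (mA M) := by
  have h1 : M * M⁻¹ = 1 := Matrix.mul_nonsing_inv _ ((Matrix.isUnit_iff_isUnit_det _).mp h)
  have h2 : M⁻¹ * M = 1 := Matrix.nonsing_inv_mul _ ((Matrix.isUnit_iff_isUnit_det _).mp h)
  have h3 : mA M * mA M⁻¹ = 1 := by rw [← mA_mul, h1, mA_one]
  have h4 : mA M⁻¹ * mA M = 1 := by rw [← mA_mul, h2, mA_one]
  exact (Ring.inverse_unit (⟨mA M, mA M⁻¹, h3, h4⟩ : (BV D e →L[ℂ] BV D e)ˣ)).symm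

theorem isUnit_mA {M : Matrix (BoxT D e) (BoxT D e) ℂ} (h : IsUnit M) : IsUnit (mA M) := by
  have h1 : M * M⁻¹ = 1 := Matrix.mul_nonsing_inv _ ((Matrix.isUnit_iff_isUnit_det _).mp h)
  have h2 : M⁻¹ * M = 1 := Matrix.nonsing_inv_mul _ ((Matrix.isUnit_iff_isUnit_det _).mp h)
  have h3 : mA M * mA M⁻¹ = 1 := by rw [← mA_mul, h1, mA_one]
  have h4 : mA M⁻¹ * mA M = 1 := by rw [← mA_mul, h2, mA_one]
  exact ⟨⟨mA M, mA M⁻¹, h3, h4⟩, rfl⟩

variable {E : Type*} [NormedAddCommGroup E] [NormedSpace ℂ E]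

theorem contDiff_mA {M : E → Matrix (BoxT D e) (BoxT D e) ℂ} {n : WithTop ℕ∞} {p : E}
    (h : ∀ b g, ContDiffAt ℂ n (fun q => M q b g) p) : ContDiffAt ℂ n (fun q => mA (M q)) p := by
  unfold mA
  refine ContDiffAt.sum fun b _ => ContDiffAt.sum fun g _ => ?_
  exact (h b g).smul contDiffAt_const

/-- `mulMat` in box coordinates. -/
theorem mA_mulMat (he : ∀ i, e i ≤ 1) (hD : 2 ≤ D) {a : ℂ} (ha : IrrC a) (h : Cf m D)
    {G : Cf m D} (hG : TopF D c (pol G)) {y : Fnl m} (hy : y ∈ Zs e a (pol G)) :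
    mA (mulMat e a c h G) (bx D e y) = bx D e (lm (pol h) y) := by
  rw [mA_apply]
  exact mulMat_spec he hD ha h hG hy

/-- Regular means that the matrix `mu` is invertible. -/
theorem reg_iff_isUnit (he : ∀ i, e i ≤ 1) (hD : 2 ≤ D) {a : ℂ} (ha : IrrC a) {G : Cf m D}
    (hG : TopF D c (pol G)) : Reg e (pol G) ↔ IsUnit (mulMat e (a - 1) c G G) := by
  refine ⟨isUnit_mu he hD ha hG, fun h => ?_⟩
  rintro ⟨w, hw0, hw⟩
  -- evaluation at `w`
  set y : Fnl m := (aeval w : Pol m →ₐ[ℂ] ℂ).toLinearMap with hy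
  have hyP : ∀ P, y P = eval w P := fun P => by
    show (RingHomClass.toRingHom (aeval w : Pol m →ₐ[ℂ] ℂ)) P = eval w P
    rw [coe_aeval_eq_eval]
  have hyZ : y ∈ Zs e (a - 1) (pol G) := by
    intro i P
    rw [hyP, Dop]
    simp [hw0, hw i]
  have h1 := mulMat_spec he hD ha.sub_one G hG hyZ
  have h2 : (fun b : BoxT D e => y (pol G * mon b)) = 0 := by
    funext b
    rw [hyP, map_mul, hw0, zero_mul]; rfl
  rw [h2] at h1
  have h3 : (fun b : BoxT D e => y (mon b)) = 0 :=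
    Matrix.mulVec_injective_of_isUnit h (by rw [h1, Matrix.mulVec_zero])
  have h4 : y = 0 := box_inj he hD hG ha.sub_one hyZ (fun b => congrFun h3 b)
  have h5 : y 1 = 1 := by rw [hyP, map_one]
  rw [h4] at h5
  exact zero_ne_one h5

end Pool.Agent.QC
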