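import Pool.Agent.QC.Conn.Sol

/-!
# Local existence, uniqueness and linearity for a family (real irrational exponent)
-/

set_option autoImplicit false

namespace Pool.Agent.QC

open MvPolynomial Pool.Agent.QC.Ode Filter Topology Set

variable {m D : ℕ} {E : Type*} [NormedAddCommGroup E] [NormedSpace ℂ E]
variable {e : Fin m → ℕ} {F : E → Cf m D}

theorem irrC_of_irrational {a : ℝ} (ha : Irrational a) : IrrC (a : ℂ) := by
  intro p q hq h
  apply ha
  have h1 : (q : ℝ) * a = p := by exact_mod_cast h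
  have h2 : (q : ℝ) ≠ 0 := by exact_mod_cast hq
  refine ⟨(p : ℚ) / q, ?_⟩
  push_cast
  rw [div_eq_iff h2, ← h1]
  ring

theorem Fam.mk' {a : ℝ} (he : ∀ i, e i ≤ 1) (hD : 2 ≤ D) {c : Fin m → ℂ}
    (top : ∀ p, TopF D c (pol (F p))) (hF : ContDiff ℂ ⊤ F) (ha : Irrational a) :
    Fam e (a : ℂ) c F :=
  ⟨he, hD, irrC_of_irrational ha, hF.of_le le_top, top⟩

namespace Fam

variable {a : ℂ} {c : Fin m → ℂ} (H : Fam e a c F)
include H

theorem nice {p : E} (hp : Reg e (pol (F p))) {O : Set E} (hO : O ∈ 𝓝 p) :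
    ∃ N, IsOpen N ∧ p ∈ N ∧ N ⊆ O ∧ N ⊆ {p : E | Reg e (pol (F p))} ∧
      IsPreconnected N ∧ ∀ q ∈ N, ∀ w ∈ Zs e a (pol (F q)), ∃ y, Sol e a F N y ∧ y q = w := by
  have h1 : O ∩ regS e F ∈ 𝓝 p := inter_mem hO (H.isOpen_reg.mem_nhds hp)
  obtain ⟨δ, hδ, hδN⟩ := Metric.mem_nhds_iff.mp h1
  refine ⟨Metric.ball p δ, Metric.isOpen_ball, Metric.mem_ball_self hδ,
    hδN.trans inter_subset_left, hδN.trans inter_subset_right,
    (convex_ball p δ).isPreconnected, fun q hq w hw => ?_⟩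
  exact H.exists_sol (hδN.trans inter_subset_right) (convex_ball p δ) hq hw

end Fam

theorem Sol.add {a : ℂ} {N : Set E} {y y' : E → Fnl m} (h : Sol e a F N y) (h' : Sol e a F N y') :
    Sol e a F N (y + y') := by
  refine ⟨fun P => (h.1 P).add (h'.1 P), fun p hp => ?_⟩
  obtain ⟨h1, z, h2, h3⟩ := h.2 p hp
  obtain ⟨h1', z', h2', h3'⟩ := h'.2 p hp
  refine ⟨(Zs e a (pol (F p))).add_mem h1 h1', z + z',
    ⟨(Zs e (a - 1) (pol (F p))).add_mem h2.1 h2'.1, fun P => ?_⟩, fun P v => ?_⟩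
  · show z _ + z' _ = y p P + y' p P
    rw [h2.2, h2'.2]
  · have h4 := (h3 P v).add (h3' P v)
    have e1 : a * (z + z') (pol (fderiv ℂ F p v) * P) =
        a * z (pol (fderiv ℂ F p v) * P) + a * z' (pol (fderiv ℂ F p v) * P) := by
      rw [LinearMap.add_apply]; ring
    rw [e1]
    exact h4

theorem Sol.smul {a : ℂ} {N : Set E} {y : E → Fnl m} (t : ℂ) (h : Sol e a F N y) :
    Sol e a F N (t • y) := by
  refine ⟨fun P => (h.1 P).const_smul t, fun p hp => ?_⟩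
  obtain ⟨h1, z, h2, h3⟩ := h.2 p hp
  refine ⟨(Zs e a (pol (F p))).smul_mem t h1, t • z,
    ⟨(Zs e (a - 1) (pol (F p))).smul_mem t h2.1, fun P => ?_⟩, fun P v => ?_⟩
  · show t • z _ = t • y p P
    rw [h2.2]
  · have h4 := HasDerivAt.const_smul t (h3 P v)
    have e1 : a * (t • z) (pol (fderiv ℂ F p v) * P) =
        t • (a * z (pol (fderiv ℂ F p v) * P)) := by
      rw [LinearMap.smul_apply, smul_eq_mul, smul_eq_mul]; ring
    rw [e1]
    exact h4

theorem Sol.zero {a : ℂ} {N : Set E} : Sol e a F N (0 : E → Fnl m) := by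
  refine ⟨fun P => continuousOn_const, fun p hp => ?_⟩
  refine ⟨(Zs e a (pol (F p))).zero_mem, 0,
    ⟨(Zs e (a - 1) (pol (F p))).zero_mem, fun P => rfl⟩, fun P v => ?_⟩
  have e1 : a * (0 : Fnl m) (pol (fderiv ℂ F p v) * P) = 0 := by
    rw [LinearMap.zero_apply, mul_zero]
  rw [e1]
  exact hasDerivAt_const (0 : ℂ) (0 : ℂ)

end Pool.Agent.QC
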