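import Pool.Agent.QC.Conn.Box

/-!
# The connection of a family of polynomials is holomorphic and flat

`Fam e a c F`: hypotheses on the family. `conW F p u` = connection operator on box vectors.
`Fam.curv` is the curvature identity, `Fam.conn` the `FlatConn` on the regular set.
-/

set_option autoImplicit false

namespace Pool.Agent.QC

open MvPolynomial Pool.Agent.QC.Ode Filter Topology

variable {m D : ℕ} {E : Type*} [NormedAddCommGroup E] [NormedSpace ℂ E]

/-- A family of polynomials to which the connection applies. -/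
structure Fam (e : Fin m → ℕ) (a : ℂ) (c : Fin m → ℂ) (F : E → Cf m D) : Prop where
  he : ∀ i, e i ≤ 1
  hD : 2 ≤ D
  ha : IrrC a
  hF : ContDiff ℂ 2 F
  top : ∀ p, TopF D c (pol (F p))

/-- The box vector of the functional below the functional with box vector `v`. -/
noncomputable def lowV (e : Fin m → ℕ) (a : ℂ) (c : Fin m → ℂ) (G : Cf m D) (v : BV D e) : BV D e :=
  Ring.inverse (mA (mulMat e (a - 1) c G G)) v

/-- The connection operator. -/
noncomputable def conW (e : Fin m → ℕ) (a : ℂ) (c : Fin m → ℂ) (F : E → Cf m D) (p : E) :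
    E →L[ℂ] (BV D e →L[ℂ] BV D e) :=
  ∑ t, ((ContinuousLinearMap.proj t : Cf m D →L[ℂ] ℂ).comp (fderiv ℂ F p)).smulRight
    (a • (mA (mulMat e (a - 1) c (Pi.single t 1) (F p)) *
      Ring.inverse (mA (mulMat e (a - 1) c (F p) (F p)))))

/-- The regular set. -/
def regS (e : Fin m → ℕ) (F : E → Cf m D) : Set E := {p | Reg e (pol (F p))}

variable {e : Fin m → ℕ} {a : ℂ} {c : Fin m → ℂ} {F : E → Cf m D}

theorem mulMat_single (a : ℂ) (h G : Cf m D) :
    mA (mulMat e a c h G) = ∑ t, h t • mA (mulMat e a c (Pi.single t 1) G) := by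
  ext1 v
  refine BV.ext fun b => ?_
  rw [sum_apply, map_sum]
  simp only [smul_apply, map_smul, mA_coord, smul_eq_mul]
  simp only [mulMat_eq, Finset.sum_mul, Finset.mul_sum]
  rw [Finset.sum_comm]
  refine Finset.sum_congr rfl fun t _ => Finset.sum_congr rfl fun g _ => ?_
  rw [Finset.sum_eq_single t]
  · rw [Pi.single_eq_same]; ring
  · intro t' _ ht'
    rw [Pi.single_eq_of_ne ht']; ring
  · intro h; exact absurd (Finset.mem_univ t) h

attribute [local irreducible] mulMat

theorem conW_apply (p u : E) :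
    conW e a c F p u = a • (mA (mulMat e (a - 1) c (fderiv ℂ F p u) (F p)) *
      Ring.inverse (mA (mulMat e (a - 1) c (F p) (F p)))) := by
  unfold conW
  rw [mulMat_single (a - 1) (fderiv ℂ F p u) (F p), Finset.sum_mul, Finset.smul_sum]
  simp only [sum_apply, ContinuousLinearMap.smulRight_apply, ContinuousLinearMap.comp_apply,
    ContinuousLinearMap.proj_apply]
  refine Finset.sum_congr rfl fun t _ => ?_
  rw [smul_mul_assoc, smul_comm]

namespace Fam

variable (H : Fam e a c F)
include H

theorem F_contDiffAt (p : E) : ContDiffAt ℂ 1 F p := (H.hF.of_le one_le_two).contDiffAt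

theorem F_diff (p : E) : DifferentiableAt ℂ F p := (H.F_contDiffAt p).differentiableAt one_ne_zero

theorem mem_reg_iff (p : E) : p ∈ regS e F ↔ IsUnit (mulMat e (a - 1) c (F p) (F p)) :=
  reg_iff_isUnit H.he H.hD H.ha (H.top p)

theorem isOpen_reg : IsOpen (regS e F) := by
  have h1 : regS e F = {p | (mulMat e (a - 1) c (F p) (F p)).det ≠ 0} := by
    ext p
    rw [H.mem_reg_iff, Matrix.isUnit_iff_isUnit_det, isUnit_iff_ne_zero]; rfl
  rw [h1]
  have h2 : Continuous fun p => mulMat e (a - 1) c (F p) (F p) := by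
    refine continuous_matrix fun b g => ?_
    have h3 : Continuous fun pr : Cf m D × Cf m D => mulMat e (a - 1) c pr.1 pr.2 b g :=
      (contDiff_mulMat (D := D) e (a - 1) c ℂ (n := 0) b g).continuous
    exact Continuous.comp h3 (H.hF.continuous.prodMk H.hF.continuous)
  exact isOpen_ne.preimage h2.matrix_det

theorem low_spec {p : E} (hp : p ∈ regS e F) (v : BV D e) :
    Low e a (pol (F p)) (exF e a c (F p) v) (exF e (a - 1) c (F p) (lowV e a c (F p) v)) := by
  have hu := (H.mem_reg_iff p).mp hp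
  have h2 := exF_spec H.he H.hD H.ha.sub_one (H.top p) (lowV e a c (F p) v)
  refine ⟨h2.1, fun P => ?_⟩
  set y' := exF e (a - 1) c (F p) (lowV e a c (F p) v) with hy'
  have h3 : lm (pol (F p)) y' ∈ Zs e a (pol (F p)) := comp_mul_mem h2.1
  have h4 := mA_mulMat H.he H.hD H.ha.sub_one (F p) (H.top p) h2.1
  have h6 : mA (mulMat e (a - 1) c (F p) (F p)) (lowV e a c (F p) v) = v := by
    unfold lowV
    rw [← mul_apply_eq_comp, Ring.mul_inverse_cancel _ (isUnit_mA hu)]; rfl
  rw [h2.2, h6] at h4
  have h7 := exF_box H.he H.hD H.ha (H.top p) h3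
  rw [← h4] at h7
  rw [h7]; rfl

theorem lowV_eq {p : E} (hp : p ∈ regS e F) {y y' : Fnl m} (hy : Low e a (pol (F p)) y y') :
    lowV e a c (F p) (bx D e y) = bx D e y' := by
  have hu := (H.mem_reg_iff p).mp hp
  have h1 : bx D e y = mA (mulMat e (a - 1) c (F p) (F p)) (bx D e y') := by
    rw [mA_mulMat H.he H.hD H.ha.sub_one (F p) (H.top p) hy.1]
    exact BV.ext fun b => (hy.2 (mon b)).symm
  unfold lowV
  rw [h1, ← mul_apply_eq_comp, Ring.inverse_mul_cancel _ (isUnit_mA hu)]; rfl

theorem conW_spec {p : E} (hp : p ∈ regS e F) {y y' : Fnl m} (hy : Low e a (pol (F p)) y y')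
    (u : E) :
    conW e a c F p u (bx D e y) = a • bx D e (lm (pol (fderiv ℂ F p u)) y') := by
  rw [conW_apply, smul_apply, mul_apply_eq_comp]
  have h1 : Ring.inverse (mA (mulMat e (a - 1) c (F p) (F p))) (bx D e y) = bx D e y' :=
    H.lowV_eq hp hy
  rw [h1, mA_mulMat H.he H.hD H.ha.sub_one _ (H.top p) hy.1]

theorem contDiffAt_mul (a' : ℂ) {h : E → Cf m D} {n : WithTop ℕ∞} {p : E}
    (hh : ContDiffAt ℂ n h p) (hn : n ≤ 2) :
    ContDiffAt ℂ n (fun q => mA (mulMat e a' c (h q) (F q))) p := by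
  refine contDiff_mA fun b g => ?_
  have h3 : ContDiffAt ℂ n (fun pr : Cf m D × Cf m D => mulMat e a' c pr.1 pr.2 b g) (h p, F p) :=
    (contDiff_mulMat (D := D) e a' c ℂ (n := n) b g).contDiffAt
  exact ContDiffAt.comp p h3 (hh.prodMk (H.hF.of_le hn).contDiffAt)

theorem contDiffAt_inv {p : E} (hp : p ∈ regS e F) {n : WithTop ℕ∞} (hn : n ≤ 2) :
    ContDiffAt ℂ n (fun q => Ring.inverse (mA (mulMat e (a - 1) c (F q) (F q)))) p := by
  obtain ⟨u, hu⟩ := isUnit_mA ((H.mem_reg_iff p).mp hp)
  have h1 := H.contDiffAt_mul (a - 1) (H.hF.of_le hn).contDiffAt hn (p := p)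
  have h2 : ContDiffAt ℂ n Ring.inverse (mA (mulMat e (a - 1) c (F p) (F p))) := by
    rw [← hu]; exact contDiffAt_ringInverse ℂ u
  exact h2.comp p h1

theorem contDiffAt_conW {p : E} (hp : p ∈ regS e F) : ContDiffAt ℂ 1 (conW e a c F) p := by
  unfold conW
  refine ContDiffAt.sum fun t _ => ContDiffAt.smulRight ?_ ?_
  · have h1 : ContDiffAt ℂ 1 (fderiv ℂ F) p :=
      (H.hF.fderiv_right (m := 1) (by norm_num)).contDiffAt
    exact contDiffAt_const.clm_comp h1
  · refine ContDiffAt.const_smul a ?_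
    exact (H.contDiffAt_mul (a - 1) contDiffAt_const one_le_two).mul
      (H.contDiffAt_inv hp one_le_two)

/-- Smoothness of `exF`. -/
theorem dFn_exF (a' : ℂ) {v : E → BV D e} {p : E} (hv : DifferentiableAt ℂ v p) :
    DFn (fun q => exF e a' c (F q) (v q)) p := by
  intro P
  simp only [exF_apply]
  refine DifferentiableAt.fun_sum fun b _ => DifferentiableAt.mul ?_ ?_
  · have h1 : DifferentiableAt ℂ (fun G : Cf m D => eval G (red e a' c P b)) (F p) :=
      ((contDiff_eval ℂ _ (n := 1)).differentiable one_ne_zero) _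
    exact h1.comp p (H.F_diff p)
  · exact (prj b).differentiableAt.comp p hv

theorem lowV_diff {v : E → BV D e} {p : E} (hp : p ∈ regS e F) (hv : DifferentiableAt ℂ v p) :
    DifferentiableAt ℂ (fun q => lowV e a c (F q) (v q)) p :=
  ((H.contDiffAt_inv hp one_le_two).differentiableAt one_ne_zero).clm_apply hv

theorem sub_one : Fam e (a - 1) c F := ⟨H.he, H.hD, H.ha.sub_one, H.hF, H.top⟩

/-- The covariant derivatives of a differentiable section. -/
theorem nabla {v : E → BV D e} {p : E} (hp : p ∈ regS e F) (hv : DifferentiableAt ℂ v p) (u : E) :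
    Low e a (pol (F p))
      (dfn (fun q => exF e a c (F q) (v q)) p u -
        a • lm (pol (fderiv ℂ F p u)) (exF e (a - 1) c (F p) (lowV e a c (F p) (v p))))
      (dfn (fun q => exF e (a - 1) c (F q) (lowV e a c (F q) (v q))) p u -
        (a - 1) • lm (pol (fderiv ℂ F p u))
          (exF e (a - 1 - 1) c (F p) (lowV e (a - 1) c (F p) (lowV e a c (F p) (v p))))) := by
  have hreg : ∀ᶠ q in 𝓝 p, q ∈ regS e F := H.isOpen_reg.mem_nhds hp
  have hy : DFn (fun q => exF e a c (F q) (v q)) p := H.dFn_exF a hv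
  have hy' : DFn (fun q => exF e (a - 1) c (F q) (lowV e a c (F q) (v q))) p :=
    H.dFn_exF (a - 1) (H.lowV_diff hp hv)
  refine nabla_low (H.sub_one.low_spec hp _) (fun i P => ?_) (fun P => ?_)
  · exact dfn_Dop hy' (H.F_diff p) (Eventually.of_forall fun q =>
      (exF_spec H.he H.hD H.ha.sub_one (H.top q) _).1) u i P
  · refine dfn_low hy hy' (H.F_diff p) ?_ u P
    filter_upwards [hreg] with q hq using (H.low_spec hq _).2

/-- The box vector of the derivative. -/
theorem bx_dfn (a' : ℂ) (ha' : IrrC a') {v : E → BV D e} {p : E} (hv : DifferentiableAt ℂ v p)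
    (u : E) : bx D e (dfn (fun q => exF e a' c (F q) (v q)) p u) = fderiv ℂ v p u := by
  have hy : DFn (fun q => exF e a' c (F q) (v q)) p := H.dFn_exF a' hv
  refine BV.ext fun b => ?_
  rw [prj_bx, dfn_apply hy]
  have h3 : (fun q => exF e a' c (F q) (v q) (mon b)) = fun q => prj b (v q) := by
    funext q
    rw [← prj_bx (D := D) (e := e), (exF_spec H.he H.hD ha' (H.top q) (v q)).2]
  rw [h3]
  have h4 : HasFDerivAt (fun q => prj b (v q)) ((prj b).comp (fderiv ℂ v p)) p :=
    (prj b).hasFDerivAt.comp p hv.hasFDerivAt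
  rw [h4.fderiv]; rfl

theorem box_nabla {v : E → BV D e} {p : E} (hp : p ∈ regS e F) (hv : DifferentiableAt ℂ v p)
    (u : E) : bx D e (dfn (fun q => exF e a c (F q) (v q)) p u -
        a • lm (pol (fderiv ℂ F p u)) (exF e (a - 1) c (F p) (lowV e a c (F p) (v p)))) =
      fderiv ℂ v p u - conW e a c F p u (v p) := by
  have h1 := H.conW_spec hp (H.low_spec hp (v p)) u
  rw [(exF_spec H.he H.hD H.ha (H.top p) (v p)).2] at h1
  rw [h1, map_sub, map_smul, H.bx_dfn a H.ha hv]

/-- The curvature identity. -/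
theorem curv {p : E} (hp : p ∈ regS e F) (x y : E) :
    fderiv ℂ (conW e a c F) p x y - fderiv ℂ (conW e a c F) p y x =
      conW e a c F p x * conW e a c F p y - conW e a c F p y * conW e a c F p x := by
  ext1 v
  refine BV.ext fun b => ?_
  set W := conW e a c F with hW
  set Y : E → Fnl m := fun q => exF e (a - 1) c (F q) (lowV e a c (F q) v) with hY
  set Y'' : Fnl m := exF e (a - 1 - 1) c (F p) (lowV e (a - 1) c (F p) (lowV e a c (F p) v))
    with hY''
  have hv : DifferentiableAt ℂ (fun _ : E => v) p := differentiableAt_const v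
  have hYd : DFn Y p := H.dFn_exF (a - 1) (H.lowV_diff hp hv)
  have hreg : ∀ᶠ q in 𝓝 p, q ∈ regS e F := H.isOpen_reg.mem_nhds hp
  have hWd : DifferentiableAt ℂ W p := (H.contDiffAt_conW hp).differentiableAt one_ne_zero
  -- second derivatives of the family
  have hF2 : DifferentiableAt ℂ (fderiv ℂ F) p :=
    ((H.hF.fderiv_right (m := 1) (by norm_num)).differentiable one_ne_zero) p
  have hsym : ∀ u w, fderiv ℂ (fderiv ℂ F) p u w = fderiv ℂ (fderiv ℂ F) p w u := fun u w =>
    (H.hF.contDiffAt.isSymmSndFDerivAt (by simp)).eq u w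
  -- (1)
  have key1 : ∀ u w, prj b (fderiv ℂ W p u w v) =
      a * (dfn Y p u (pol (fderiv ℂ F p w) * mon b) +
        Y p (pol (fderiv ℂ (fderiv ℂ F) p u w) * mon b)) := by
    intro u w
    have e1 : HasFDerivAt (fun q => prj b (W q w v))
        ((prj b).comp (((fderiv ℂ W p).flip w).flip v)) p := by
      have h2 : HasFDerivAt (fun q => W q w) ((fderiv ℂ W p).flip w) p := by
        have h20 := hWd.hasFDerivAt.clm_apply (hasFDerivAt_const w p)
        rw [ContinuousLinearMap.comp_zero, zero_add] at h20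
        exact h20
      have h3 : HasFDerivAt (fun q => W q w v) (((fderiv ℂ W p).flip w).flip v) p := by
        have h30 := h2.clm_apply (hasFDerivAt_const v p)
        rw [ContinuousLinearMap.comp_zero, zero_add] at h30
        exact h30
      exact (prj b).hasFDerivAt.comp p h3
    have e2 : (fun q => prj b (W q w v)) =ᶠ[𝓝 p]
        fun q => a * Y q (LinearMap.mulRight ℂ (mon b : Pol m) (pol (fderiv ℂ F q w))) := by
      filter_upwards [hreg] with q hq
      have h1 := H.conW_spec hq (H.low_spec hq v) w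
      rw [(exF_spec H.he H.hD H.ha (H.top q) v).2] at h1
      rw [hW, h1, map_smul, prj_bx, lm_apply]
      rfl
    have hFw : HasFDerivAt (fun q => fderiv ℂ F q w)
        ((ContinuousLinearMap.apply ℂ (Cf m D) w).comp (fderiv ℂ (fderiv ℂ F) p)) p :=
      (ContinuousLinearMap.apply ℂ (Cf m D) w).hasFDerivAt.comp p hF2.hasFDerivAt
    obtain ⟨L, hL, hLu⟩ := hasFDerivAt_T hYd hFw (LinearMap.mulRight ℂ (mon b : Pol m))
    have e3 := (hL.const_mul a).congr_of_eventuallyEq e2
    have e4 := e1.unique e3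
    have e5 := congrArg (fun f : E →L[ℂ] ℂ => f u) e4
    have e6 : prj b (fderiv ℂ W p u w v) = a * L u := e5
    rw [e6, hLu u]
    rfl
  -- (2)
  have key2 : ∀ u w, -prj b (W p w (W p u v)) =
      a * dfn Y p u (pol (fderiv ℂ F p w) * mon b) -
        a * ((a - 1) * Y'' (pol (fderiv ℂ F p u) * (pol (fderiv ℂ F p w) * mon b))) := by
    intro u w
    have h1 := H.nabla hp hv u
    have h2 := H.conW_spec hp h1 w
    rw [H.box_nabla hp hv u, fderiv_fun_const, Pi.zero_apply, zero_apply,
      zero_sub, map_neg] at h2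
    have h3 := congrArg (prj b) h2
    rw [map_neg, map_smul, prj_bx, lm_apply, LinearMap.sub_apply, LinearMap.smul_apply,
      lm_apply, smul_eq_mul, smul_eq_mul] at h3
    rw [h3]
    ring
  have k1 := key1 x y
  have k2 := key1 y x
  have k3 := key2 x y
  have k4 := key2 y x
  have h5 : Y'' (pol (fderiv ℂ F p x) * (pol (fderiv ℂ F p y) * mon b)) =
      Y'' (pol (fderiv ℂ F p y) * (pol (fderiv ℂ F p x) * mon b)) := by
    congr 1; ring
  rw [hsym y x] at k2
  rw [h5] at k3
  have goal' : prj b (fderiv ℂ W p x y v) - prj b (fderiv ℂ W p y x v) =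
      prj b (W p x (W p y v)) - prj b (W p y (W p x v)) := by
    rw [k1, k2]
    linear_combination -k3 + k4
  have r1 : prj b ((fderiv ℂ W p x y - fderiv ℂ W p y x) v) =
      prj b (fderiv ℂ W p x y v) - prj b (fderiv ℂ W p y x v) := by
    rw [sub_apply, map_sub]
  have r2 : prj b ((W p x * W p y - W p y * W p x) v) =
      prj b (W p x (W p y v)) - prj b (W p y (W p x v)) := by
    rw [sub_apply, map_sub]; rfl
  rw [r1, r2, goal']

/-- The flat connection on the regular set. -/
noncomputable def conn : FlatConn E (BV D e →L[ℂ] BV D e) :=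
  cplxConn (regS e F) H.isOpen_reg (conW e a c F)
    (fun _ hp => (H.contDiffAt_conW hp).contDiffWithinAt) (fun _ hp x y => H.curv hp x y)

end Fam

end Pool.Agent.QC
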