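import Pool.Agent.QC.Conn.Flat

/-!
# Local existence and uniqueness of solutions
-/

set_option autoImplicit false

namespace Pool.Agent.QC

open MvPolynomial Pool.Agent.QC.Ode Filter Topology Set

variable {m D : ℕ} {E : Type*} [NormedAddCommGroup E] [NormedSpace ℂ E]
variable {e : Fin m → ℕ} {a : ℂ} {c : Fin m → ℂ} {F : E → Cf m D}

theorem hasDerivAt_mkV {v : ℝ → BoxT D e → ℂ} {v' : BoxT D e → ℂ} {t : ℝ}
    (h : ∀ b, HasDerivAt (fun t => v t b) (v' b) t) :
    HasDerivAt (fun t => (mkV (v t) : BV D e)) (mkV v') t :=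
  hasDerivAt_pi.mpr h

namespace Fam

variable (H : Fam e a c F)
include H

theorem conn_X : H.conn.X = regS e F := rfl

theorem conn_w (p u : E) : H.conn.w p u = conW e a c F p u := rfl

theorem conn_fderiv {q r : E} (h : segment ℝ q r ⊆ regS e F) (v : BV D e) :
    HasFDerivAt (𝕜 := ℂ) (fun r => H.conn.tr q r v)
      ((conW e a c F r).flip (H.conn.tr q r v)) r := by
  have h1 : HasFDerivAt (𝕜 := ℂ) (fun r => H.conn.tr q r)
      (((ContinuousLinearMap.mul ℂ (BV D e →L[ℂ] BV D e)).flip (H.conn.tr q r)).comp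
        (conW e a c F r)) r := cplxConn_hasFDerivAt h
  have h2 := h1.clm_apply (hasFDerivAt_const v r)
  rw [ContinuousLinearMap.comp_zero, zero_add] at h2
  have e1 : (((ContinuousLinearMap.mul ℂ (BV D e →L[ℂ] BV D e)).flip (H.conn.tr q r)).comp
        (conW e a c F r)).flip v = (conW e a c F r).flip (H.conn.tr q r v) := by
    ext1 u; rfl
  rw [e1] at h2
  exact h2

/-- The functional valued map with flat box vector is a solution. -/
theorem sol_exF {N : Set E} (hN : N ⊆ regS e F) {v : E → BV D e}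
    (hv : ∀ r ∈ N, HasFDerivAt (𝕜 := ℂ) v ((conW e a c F r).flip (v r)) r) :
    Sol e a F N (fun r => exF e a c (F r) (v r)) := by
  have hd : ∀ r ∈ N, DifferentiableAt ℂ v r := fun r hr => (hv r hr).differentiableAt
  refine ⟨fun P r hr => (H.dFn_exF a (hd r hr) P).continuousAt.continuousWithinAt,
    fun r hr => ⟨(exF_spec H.he H.hD H.ha (H.top r) (v r)).1, _, H.low_spec (hN hr) (v r),
      fun P u => ?_⟩⟩
  have hy := H.dFn_exF a (hd r hr)
  have h1 := H.nabla (hN hr) (hd r hr) u
  have h2 := H.box_nabla (hN hr) (hd r hr) u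
  rw [(hv r hr).fderiv] at h2
  have h3 : (conW e a c F r).flip (v r) u - conW e a c F r u (v r) = 0 := sub_self _
  rw [h3] at h2
  have h4 : dfn (fun q => exF e a c (F q) (v q)) r u -
      a • lm (pol (fderiv ℂ F r u)) (exF e (a - 1) c (F r) (lowV e a c (F r) (v r))) = 0 := by
    refine box_inj H.he H.hD (H.top r) H.ha ?_ (fun b => ?_)
    · have h5 := comp_mul_mem h1.1
      intro i Q
      rw [← h1.2]
      exact h5 i Q
    · rw [← prj_bx (D := D) (e := e), h2, map_zero]
  have h5 : dfn (fun q => exF e a c (F q) (v q)) r u P =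
      a * exF e (a - 1) c (F r) (lowV e a c (F r) (v r)) (pol (fderiv ℂ F r u) * P) := by
    rw [sub_eq_zero.mp h4]; rfl
  rw [← h5, dfn_apply hy]
  exact (hy P).hasFDerivAt.hasLineDerivAt u

/-- Local existence. -/
theorem exists_sol {N : Set E} (hN : N ⊆ regS e F) (hNc : Convex ℝ N) {q : E} (hq : q ∈ N)
    {w : Fnl m} (hw : w ∈ Zs e a (pol (F q))) :
    ∃ y, Sol e a F N y ∧ y q = w := by
  refine ⟨_, H.sol_exF hN (v := fun r => H.conn.tr q r (bx D e w)) (fun r hr => ?_), ?_⟩
  · exact H.conn_fderiv ((hNc.segment_subset hq hr).trans hN) _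
  · show exF e a c (F q) (H.conn.tr q q (bx D e w)) = w
    rw [H.conn.tr_self q (hN hq)]
    exact exF_box H.he H.hD H.ha (H.top q) hw

/-- A solution along a segment. -/
theorem sol_tr {N : Set E} {y : E → Fnl m} (hy : Sol e a F N y) (hN : N ⊆ regS e F) {q r : E}
    (h : segment ℝ q r ⊆ N) : bx D e (y r) = H.conn.tr q r (bx D e (y q)) := by
  have key := H.conn.sol_unique_vec (p := q) (q := r) (h.trans hN)
    (y := fun t => bx D e (y (FlatConn.ln q r t))) (t := 1) (fun t ht => ?_)
    ⟨zero_le_one, le_rfl⟩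
  · simp only [FlatConn.ln_one, FlatConn.ln_zero] at key
    exact key
  · refine HasDerivAt.hasDerivWithinAt ?_
    have hr : FlatConn.ln q r t ∈ N := h (FlatConn.ln_mem ht)
    obtain ⟨h1, y', hl, h2⟩ := hy.2 _ hr
    have h3 := H.conW_spec (hN hr) hl (r - q)
    rw [conn_w, h3]
    refine hasDerivAt_mkV fun b => ?_
    have h4 := h2 (mon b) (r - q)
    have h5 : HasDerivAt (fun s : ℂ => y (FlatConn.ln q r t + s • (r - q)) (mon b))
        (a * y' (pol (fderiv ℂ F (FlatConn.ln q r t) (r - q)) * mon b)) 0 := h4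
    have h6 : HasDerivAt (fun s : ℝ => ((s - t : ℝ) : ℂ)) 1 t := by
      have := ((hasDerivAt_id t).sub_const t).ofReal_comp
      simpa using this
    have h7 : HasDerivAt (fun s : ℂ => y (FlatConn.ln q r t + s • (r - q)) (mon b))
        (a * y' (pol (fderiv ℂ F (FlatConn.ln q r t) (r - q)) * mon b)) ((t - t : ℝ) : ℂ) := by
      rw [sub_self, Complex.ofReal_zero]; exact h5
    have h8 := h7.comp t h6
    rw [mul_one] at h8
    refine h8.congr_of_eventuallyEq (Eventually.of_forall fun s => ?_)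
    show y (FlatConn.ln q r s) (mon b) = y (FlatConn.ln q r t + ((s - t : ℝ) : ℂ) • (r - q)) (mon b)
    congr 1
    congr 1
    simp only [FlatConn.ln]
    rw [Complex.coe_smul]
    module

/-- Uniqueness. -/
theorem sol_unique {N : Set E} {y y' : E → Fnl m} {p : E} (hNo : IsOpen N)
    (hN : IsPreconnected N) (hX : N ⊆ regS e F) (hy : Sol e a F N y) (hy' : Sol e a F N y')
    (hp : p ∈ N) (he : y p = y' p) : EqOn y y' N := by
  set u : Set E := {z | z ∈ N ∧ y z = y' z} with hu
  have huo : IsOpen u := by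
    rw [isOpen_iff_mem_nhds]
    rintro z ⟨hz, hzy⟩
    obtain ⟨r, hr, hrG⟩ := Metric.isOpen_iff.mp hNo z hz
    filter_upwards [Metric.ball_mem_nhds z hr] with w hw
    have hs : segment ℝ z w ⊆ N :=
      ((convex_ball z r).segment_subset (Metric.mem_ball_self hr) hw).trans hrG
    refine ⟨hrG hw, ?_⟩
    have h1 := H.sol_tr hy hX hs
    have h2 := H.sol_tr hy' hX hs
    rw [hzy, ← h2] at h1
    have hw1 := (hy.2 w (hrG hw)).1
    have hw2 := (hy'.2 w (hrG hw)).1
    rw [← exF_box H.he H.hD H.ha (H.top w) hw1, ← exF_box H.he H.hD H.ha (H.top w) hw2, h1]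
  have hcl : closure u ∩ N ⊆ u := by
    rintro z ⟨hz, hzG⟩
    refine ⟨hzG, LinearMap.ext fun P => ?_⟩
    have hc : ContinuousAt (fun w => y w P - y' w P) z :=
      ((hy.1 P).continuousAt (hNo.mem_nhds hzG)).sub ((hy'.1 P).continuousAt (hNo.mem_nhds hzG))
    have h1 : y z P - y' z P ∈ closure ((fun w => y w P - y' w P) '' u) :=
      hc.continuousWithinAt.mem_closure_image hz
    have h2 : (fun w => y w P - y' w P) '' u ⊆ {0} := by
      rintro _ ⟨w, hw, rfl⟩
      simp [hw.2]
    have h3 := closure_mono h2 h1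
    rw [closure_singleton] at h3
    exact sub_eq_zero.mp h3
  have h4 := hN.subset_of_closure_inter_subset huo ⟨p, hp, hp, he⟩ hcl
  exact fun z hz => (h4 hz).2

end Fam

end Pool.Agent.QC
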